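import Pool.Agent.Work.MP_db9399_nc.Base

/-! THEOREM NC, block PLAN: unused colours and classes of one spot. -/

set_option autoImplicit false

namespace Pool.Agent.Work.MP_db9399_nc.helper54

open Finset Classical
open Pool.Agent.Work.MP_db9399_all (nb)

universe u

section
variable {V : Type u} [Fintype V]

/-- the state of the construction of the classes: `q` pairs -/
structure PS (G : SimpleGraph V) (hp : V → V) (C : Finset V) (q : ℕ) (cls : V → V) : Prop where
  cmem : ∀ v ∈ C, cls v ∈ C ∧ cls (cls v) = cls v
  cind : ∀ v ∈ C, ∀ w ∈ C, v ≠ w → cls v = cls w → ¬ G.Adj v w ∧ hp v = v ∧ hp w = w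
  ctwo : ∀ v ∈ C, (C.filter (fun w => cls w = cls v)).card ≤ 2
  num : (C.filter (fun v => cls v ≠ v)).card = q
  tou : (C.filter (fun v => ∃ w ∈ C, w ≠ v ∧ cls w = cls v)).card ≤ 2 * q

theorem ps_zero (G : SimpleGraph V) (hp : V → V) (C : Finset V) : PS G hp C 0 (fun v => v) := by
  refine ⟨fun v hv => ⟨hv, rfl⟩, fun v _ w _ h1 h2 => absurd h2 h1, fun v _ => ?_, ?_, ?_⟩
  · have : C.filter (fun w => w = v) ⊆ {v} := by
      intro w hw
      rw [mem_filter] at hw
      rw [mem_singleton]
      exact hw.2
    exact (card_le_card this).trans (by simp)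
  · simp
  · have : C.filter (fun v => ∃ w ∈ C, w ≠ v ∧ w = v) = ∅ := by
      apply filter_false_of_mem
      rintro v _ ⟨w, _, h1, h2⟩
      exact h1 h2
    rw [this]
    simp

theorem ps_step {G : SimpleGraph V} {hp : V → V} {C : Finset V} {q : ℕ} {cls : V → V}
    (h : PS G hp C q cls) {v w : V} (hv : v ∈ C) (hw : w ∈ C) (hvw : v ≠ w)
    (hna : ¬ G.Adj v w) (hpv : hp v = v) (hpw : hp w = w)
    (htv : ¬ ∃ z ∈ C, z ≠ v ∧ cls z = cls v) (htw : ¬ ∃ z ∈ C, z ≠ w ∧ cls z = cls w) :
    PS G hp C (q + 1) (Function.update cls w v) := by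
  have hcv : cls v = v := by
    by_contra hne
    exact htv ⟨cls v, (h.cmem v hv).1, hne, (h.cmem v hv).2⟩
  have hcw : cls w = w := by
    by_contra hne
    exact htw ⟨cls w, (h.cmem w hw).1, hne, (h.cmem w hw).2⟩
  have hne1 : ∀ z ∈ C, z ≠ v → cls z ≠ v := by
    intro z hz hzv he
    exact htv ⟨z, hz, hzv, he.trans hcv.symm⟩
  have hne2 : ∀ z ∈ C, z ≠ w → cls z ≠ w := by
    intro z hz hzw he
    exact htw ⟨z, hz, hzw, he.trans hcw.symm⟩
  set c' := Function.update cls w v with hc'
  have e1 : c' w = v := by rw [hc', Function.update_self]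
  have e2 : ∀ z, z ≠ w → c' z = cls z := fun z hz => by rw [hc', Function.update_of_ne hz]
  have e3 : c' v = v := by rw [e2 v hvw, hcv]
  refine ⟨?_, ?_, ?_, ?_, ?_⟩
  · intro z hz
    by_cases hzw : z = w
    · subst hzw
      rw [e1, e3]
      exact ⟨hv, rfl⟩
    · rw [e2 z hzw]
      obtain ⟨h1, h2⟩ := h.cmem z hz
      refine ⟨h1, ?_⟩
      rw [e2 _ (hne2 z hz hzw), h2]
  · intro a ha b hb hab he
    by_cases haw : a = w
    · subst haw
      rw [e1, e2 b (Ne.symm hab)] at he
      by_cases hbv : b = v
      · subst hbv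
        exact ⟨fun h' => hna h'.symm, hpw, hpv⟩
      · exact absurd he.symm (hne1 b hb hbv)
    · by_cases hbw : b = w
      · subst hbw
        rw [e1, e2 a haw] at he
        by_cases hav : a = v
        · subst hav
          exact ⟨hna, hpv, hpw⟩
        · exact absurd he (hne1 a ha hav)
      · rw [e2 a haw, e2 b hbw] at he
        exact h.cind a ha b hb hab he
  · intro z hz
    by_cases hzz : z = v ∨ z = w
    · have hz1 : c' z = v := by
        rcases hzz with h1 | h1
        · rw [h1, e3]
        · rw [h1, e1]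
      have : C.filter (fun a => c' a = c' z) ⊆ {v, w} := by
        intro a ha
        rw [mem_filter, hz1] at ha
        rw [mem_insert, mem_singleton]
        by_cases haw : a = w
        · exact Or.inr haw
        · left
          by_contra hav
          rw [e2 a haw] at ha
          exact hne1 a ha.1 hav ha.2
      exact (card_le_card this).trans card_le_two
    · push Not at hzz
      have : C.filter (fun a => c' a = c' z) ⊆ C.filter (fun a => cls a = cls z) := by
        intro a ha
        rw [mem_filter, e2 z hzz.2] at ha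
        rw [mem_filter]
        refine ⟨ha.1, ?_⟩
        by_cases haw : a = w
        · exfalso
          rw [haw, e1] at ha
          exact hne1 z hz hzz.1 ha.2.symm
        · rw [e2 a haw] at ha
          exact ha.2
      exact (card_le_card this).trans (h.ctwo z hz)
  · have h1 : C.filter (fun z => c' z ≠ z) = insert w (C.filter (fun z => cls z ≠ z)) := by
      ext z
      rw [mem_insert, mem_filter, mem_filter]
      by_cases hzw : z = w
      · subst hzw
        rw [e1]
        exact ⟨fun _ => Or.inl rfl, fun _ => ⟨hw, hvw⟩⟩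
      · rw [e2 z hzw]
        constructor
        · exact fun h1 => Or.inr h1
        · rintro (h1 | h1)
          · exact absurd h1 hzw
          · exact h1
    have h2 : w ∉ C.filter (fun z => cls z ≠ z) := by
      rw [mem_filter]
      exact fun h3 => h3.2 hcw
    rw [h1, card_insert_of_notMem h2, h.num]
  · have h1 : C.filter (fun a => ∃ b ∈ C, b ≠ a ∧ c' b = c' a) ⊆
        (C.filter (fun a => ∃ b ∈ C, b ≠ a ∧ cls b = cls a)) ∪ {v, w} := by
      intro a ha
      rw [mem_filter] at ha
      obtain ⟨haC, b, hb, hba, hcc⟩ := ha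
      rw [mem_union, mem_filter, mem_insert, mem_singleton]
      by_cases hav : a = v
      · exact Or.inr (Or.inl hav)
      · by_cases haw : a = w
        · exact Or.inr (Or.inr haw)
        · left
          refine ⟨haC, b, hb, hba, ?_⟩
          rw [e2 a haw] at hcc
          by_cases hbw : b = w
          · exfalso
            rw [hbw, e1] at hcc
            exact hne1 a haC hav hcc.symm
          · rw [e2 b hbw] at hcc
            exact hcc
    have h2 := card_le_card h1
    have h3 := card_union_le (C.filter (fun a => ∃ b ∈ C, b ≠ a ∧ cls b = cls a)) {v, w}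
    have h4 : ({v, w} : Finset V).card ≤ 2 := card_le_two
    have h5 := h.tou
    omega

/-- many nonadjacent pairs -/
theorem pairs {G : SimpleGraph V} {hp : V → V} {C S : Finset V} {M x p : ℕ} (hSC : S ⊆ C)
    (hnn : ∀ v ∈ C, (nn G C v).card ≤ x) (hM : ∀ v ∈ S, M ≤ (nn G C v).card) (hM1 : 1 ≤ M)
    (hH : (C.filter (fun v => hp v ≠ v)).card ≤ 2) (hp3 : p ≤ 3 * M) (hpx : p ≤ 3 * x)
    (hS : 12 * x < S.card) : ∃ cls : V → V, PS G hp C p cls := by
  have key : ∀ q, q ≤ p → ∃ cls : V → V, PS G hp C q cls := by
    intro q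
    induction q with
    | zero => exact fun _ => ⟨_, ps_zero G hp C⟩
    | succ q ih =>
      intro hq
      obtain ⟨cls, hcls⟩ := ih (by omega)
      set T := C.filter (fun v => ∃ w ∈ C, w ≠ v ∧ cls w = cls v) with hT
      set B := T ∪ C.filter (fun v => hp v ≠ v) with hB
      have hBc : B.card ≤ 2 * p := by
        have h1 := card_union_le T (C.filter (fun v => hp v ≠ v))
        have h2 : T.card ≤ 2 * q := by
          refine le_trans (card_le_card ?_) hcls.tou
          intro z hz
          rw [hT, mem_filter] at hz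
          simp only [mem_filter]
          exact hz
        rw [hB]
        omega
      have hBC : B ⊆ C := union_subset (filter_subset _ _) (filter_subset _ _)
      have hex : ∃ v ∈ S \ B, ∃ w ∈ nn G C v, w ∉ B := by
        by_contra hcon
        push Not at hcon
        have h1 := Finset.sum_card_bipartiteAbove_eq_sum_card_bipartiteBelow
          (s := S \ B) (t := B) (fun v b => b ≠ v ∧ ¬ G.Adj v b)
        have h2 : ∀ v ∈ S \ B, M ≤
            (B.bipartiteAbove (fun v b => b ≠ v ∧ ¬ G.Adj v b) v).card := by
          intro v hv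
          refine (hM v (mem_sdiff.1 hv).1).trans (card_le_card ?_)
          intro w hw
          have h3 := hcon v hv w hw
          rw [mem_nn] at hw
          rw [Finset.mem_bipartiteAbove]
          exact ⟨h3, hw.2⟩
        have h3 : ∀ b ∈ B, ((S \ B).bipartiteBelow (fun v b => b ≠ v ∧ ¬ G.Adj v b) b).card ≤
            x := by
          intro b hb
          refine le_trans (card_le_card ?_) (hnn b (hBC hb))
          intro v hv
          rw [Finset.mem_bipartiteBelow] at hv
          rw [mem_nn]
          exact ⟨hSC (mem_sdiff.1 hv.1).1, Ne.symm hv.2.1, fun h4 => hv.2.2 h4.symm⟩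
        have h4 : (S \ B).card * M ≤ ∑ v ∈ S \ B,
            (B.bipartiteAbove (fun v b => b ≠ v ∧ ¬ G.Adj v b) v).card := by
          rw [← smul_eq_mul]
          exact card_nsmul_le_sum _ _ _ h2
        have h5 : ∑ b ∈ B, ((S \ B).bipartiteBelow (fun v b => b ≠ v ∧ ¬ G.Adj v b) b).card ≤
            B.card * x := by
          rw [← smul_eq_mul]
          exact sum_le_card_nsmul _ _ _ h3
        have h6 : S.card ≤ (S \ B).card + B.card := by
          have := card_le_card_sdiff_add_card (s := S) (t := B)
          exact this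
        have h7 : (S \ B).card * M ≤ B.card * x := by
          rw [h1] at h4
          exact h4.trans h5
        have h8 : B.card * x ≤ 6 * x * M := by
          have : B.card ≤ 6 * M := by omega
          calc B.card * x ≤ 6 * M * x := Nat.mul_le_mul_right _ this
            _ = 6 * x * M := by ring
        have h9 : (S \ B).card ≤ 6 * x := Nat.le_of_mul_le_mul_right (h7.trans h8) hM1
        omega
      obtain ⟨v, hv, w, hw, hwB⟩ := hex
      rw [mem_sdiff] at hv
      rw [mem_nn] at hw
      have hvC := hSC hv.1
      have hvB := hv.2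
      rw [hB, mem_union, not_or, hT, mem_filter, mem_filter] at hvB hwB
      refine ⟨_, ps_step hcls hvC hw.1 (Ne.symm hw.2.1) hw.2.2 ?_ ?_
        (fun h1 => hvB.1 ⟨hvC, h1⟩) (fun h1 => hwB.1 ⟨hw.1, h1⟩)⟩
      · by_contra h1
        exact hvB.2 ⟨hvC, h1⟩
      · by_contra h1
        exact hwB.2 ⟨hw.1, h1⟩
  exact key p le_rfl

end

theorem stmt_PLAN : Stmt_PLAN.{u} := by
  intro V _ G d x f hp c0 g hN E hE i
  have hx1 := hN.x1
  have hxd := hN.xd
  by_cases hemp : cl f i = ∅
  · -- empty spot
    obtain ⟨a, ha, haE⟩ : ∃ a ∈ range (d + 2), a ∉ E := by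
      by_contra hcon
      push Not at hcon
      have h1 := card_le_card (show range (d + 2) ⊆ E from hcon)
      rw [card_range] at h1
      omega
    rw [mem_range] at ha
    refine ⟨{a}, a, fun v => v, ?_⟩
    refine ⟨mem_singleton_self _, ha, haE, ?_, by simp, ?_, ?_, ?_, ?_, ?_, ?_, ?_⟩
    · intro v hv
      rw [hemp] at hv
      exact absurd hv (notMem_empty _)
    · intro α _
      rw [hemp]
      simp
    · intro v hv
      rw [hemp] at hv
      exact absurd hv (notMem_empty _)
    · intro v hv
      rw [hemp] at hv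
      exact absurd hv (notMem_empty _)
    · intro v hv
      rw [hemp] at hv
      exact absurd hv (notMem_empty _)
    · rw [hemp]
      simp
    · rw [hemp]
      simp
    · intro _ v _
      rfl
  obtain ⟨v0, hv0⟩ := nonempty_iff_ne_empty.2 hemp
  have hi : f v0 = i := mem_cl.1 hv0
  set C := cl f i with hC
  have hfC : ∀ v ∈ C, cl f (f v) = C := by
    intro v hv
    rw [mem_cl.1 hv]
  have hCx : C.card ≤ d + 1 + x := by
    have := hN.card_cl v0
    rwa [hfC v0 hv0] at this
  have hnn : ∀ v ∈ C, (nn G C v).card ≤ x := by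
    intro v hv
    have := hN.inn v
    rwa [hfC v hv] at this
  have hge : ∀ v ∈ C, C.card + (Fh G f hp c0 v).card ≤ d + 1 + (nn G C v).card := by
    intro v hv
    have h1 := hN.nn_ge v
    rw [hfC v hv] at h1
    have h2 : (Fh G f hp c0 v).card ≤ (out G f v).card := Fh_out v
    omega
  have hHc : (C.filter (fun v => hp v ≠ v)).card ≤ 2 := hN.hcard i
  -- superheavy colours
  set Sa : ℕ → Finset V := fun α => C.filter (fun v => hp v = v ∧ α ∈ Fh G f hp c0 v) with hSa
  set Hv : Finset ℕ := (C.biUnion (fun v => Fh G f hp c0 v)).filter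
    (fun α => 3 * d < 4 * (Sa α).card) with hHv
  have hHv2 : ∀ α, α ∉ Hv → 4 * (Sa α).card ≤ 3 * d := by
    intro α hα
    by_contra hcon
    push Not at hcon
    apply hα
    rw [hHv, mem_filter, mem_biUnion]
    refine ⟨?_, hcon⟩
    have h1 : 0 < (Sa α).card := by omega
    obtain ⟨v, hv⟩ := card_pos.1 h1
    rw [hSa, mem_filter] at hv
    exact ⟨v, hv.1, hv.2.2⟩
  have hHv3 : ∀ α ∈ Hv, 3 * d < 4 * (Sa α).card := by
    intro α hα
    rw [hHv, mem_filter] at hα
    exact hα.2
  have hsum : ∀ T : Finset ℕ, ∑ α ∈ T, (Sa α).card ≤ C.card * 2 := by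
    intro T
    have h1 : ∑ α ∈ T, (Sa α).card ≤
        ∑ α ∈ T, (C.bipartiteAbove (fun (α : ℕ) v => α ∈ Fh G f hp c0 v) α).card := by
      apply sum_le_sum
      intro α _
      apply card_le_card
      intro v hv
      rw [hSa, mem_filter] at hv
      rw [Finset.mem_bipartiteAbove]
      exact ⟨hv.1, hv.2.2⟩
    rw [Finset.sum_card_bipartiteAbove_eq_sum_card_bipartiteBelow] at h1
    refine h1.trans ?_
    rw [← smul_eq_mul]
    apply sum_le_card_nsmul
    intro v _
    refine le_trans (card_le_card ?_) (hN.Fh_two v)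
    intro α hα
    rw [Finset.mem_bipartiteBelow] at hα
    exact hα.2
  have hr : Hv.card ≤ 2 := by
    by_contra hcon
    push Not at hcon
    obtain ⟨T, hT, hTc⟩ := exists_subset_card_eq (show 3 ≤ Hv.card by omega)
    have h1 := hsum T
    have h2 : T.card • (3 * d + 1) ≤ ∑ α ∈ T, 4 * (Sa α).card := by
      apply card_nsmul_le_sum
      intro α hα
      exact hHv3 α (hT hα)
    rw [← mul_sum, smul_eq_mul, hTc] at h2
    omega
  -- the free colour
  set HC := C.filter (fun v => hp v ≠ v) with hHC
  obtain ⟨a, ha, hax⟩ : ∃ a ∈ range (d + 2), a ∉ E ∪ Hv ∪ HC.image g ∪ HC.image c0 := by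
    by_contra hcon
    push Not at hcon
    have h1 := card_le_card (show range (d + 2) ⊆ E ∪ Hv ∪ HC.image g ∪ HC.image c0 from hcon)
    rw [card_range] at h1
    have h2 := card_union_le (E ∪ Hv ∪ HC.image g) (HC.image c0)
    have h3 := card_union_le (E ∪ Hv) (HC.image g)
    have h4 := card_union_le E Hv
    have h5 : (HC.image g).card ≤ HC.card := card_image_le
    have h6 : (HC.image c0).card ≤ HC.card := card_image_le
    omega
  rw [mem_range] at ha
  rw [mem_union, mem_union, mem_union, not_or, not_or, not_or] at hax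
  obtain ⟨⟨⟨haE, haH⟩, hag⟩, hac⟩ := hax
  -- the pairs
  obtain ⟨cls, hcls⟩ : ∃ cls : V → V, PS G hp C (C.card + Hv.card - (d + 1)) cls := by
    by_cases hp0 : C.card + Hv.card ≤ d + 1
    · rw [Nat.sub_eq_zero_of_le hp0]
      exact ⟨_, ps_zero G hp C⟩
    push Not at hp0
    by_cases hj1 : d + 2 ≤ C.card
    · -- every vertex has nonneighbours
      refine pairs (S := C) (M := C.card - (d + 1)) (x := x) (Subset.refl _) hnn ?_ (by omega) hHc
        (by omega) (by omega) (by omega)
      intro v hv
      have := hge v hv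
      omega
    · have hHne : 0 < Hv.card := by omega
      obtain ⟨α, hα⟩ := card_pos.1 hHne
      have hα2 := hHv3 α hα
      by_cases hj0 : C.card = d + 1
      · refine pairs (S := Sa α) (M := 1) (x := x) (filter_subset _ _) hnn ?_ le_rfl hHc
          (by omega) (by omega) (by omega)
        intro v hv
        rw [hSa, mem_filter] at hv
        have h1 := hge v hv.1
        have h2 : 0 < (Fh G f hp c0 v).card := card_pos.2 ⟨α, hv.2.2⟩
        omega
      · -- two superheavy colours, `|C| = d`
        have hCd : C.card = d := by omega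
        have hH2 : Hv.card = 2 := by omega
        obtain ⟨β, hβ, hβα⟩ : ∃ β ∈ Hv, β ≠ α := by
          have : 1 < Hv.card := by omega
          obtain ⟨β, hβ, hne⟩ := exists_mem_ne this α
          exact ⟨β, hβ, hne⟩
        have hβ2 := hHv3 β hβ
        have h1 : (Sa α ∩ Sa β).card + (Sa α ∪ Sa β).card = (Sa α).card + (Sa β).card := by
          rw [add_comm, card_union_add_card_inter]
        have h2 : (Sa α ∪ Sa β).card ≤ C.card :=
          card_le_card (union_subset (filter_subset _ _) (filter_subset _ _))
        refine pairs (S := Sa α ∩ Sa β) (M := 1) (x := x)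
          (fun v hv => (mem_filter.1 (mem_inter.1 hv).1).1) hnn ?_ le_rfl hHc
          (by omega) (by omega) (by omega)
        intro v hv
        rw [mem_inter, hSa, mem_filter, mem_filter] at hv
        obtain ⟨⟨hvC, -, hvα⟩, -, -, hvβ⟩ := hv
        have h3 := hge v hvC
        have h4 : 2 ≤ (Fh G f hp c0 v).card := by
          have h5 : ({α, β} : Finset ℕ) ⊆ Fh G f hp c0 v := by
            intro γ hγ
            rw [mem_insert, mem_singleton] at hγ
            rcases hγ with rfl | rfl
            · exact hvα
            · exact hvβ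
          have h6 := card_le_card h5
          rwa [card_pair (Ne.symm hβα)] at h6
        omega
  refine ⟨insert a Hv, a, cls, ?_⟩
  have hsub : C.filter (fun v => cls v ≠ v) ⊆ C.filter (fun v => hp v = v) := by
    intro v hv
    rw [mem_filter] at hv ⊢
    refine ⟨hv.1, ?_⟩
    obtain ⟨h1, h2⟩ := hcls.cmem v hv.1
    exact (hcls.cind v hv.1 (cls v) h1 (Ne.symm hv.2) h2.symm).2.1
  refine ⟨mem_insert_self _ _, ha, haE, ?_, ?_, ?_, hcls.cmem, hcls.cind, hcls.ctwo, ?_, ?_, ?_⟩
  · intro v hv hpv
    constructor
    · rintro rfl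
      exact hag (mem_image.2 ⟨v, mem_filter.2 ⟨hv, hpv⟩, rfl⟩)
    · rintro rfl
      exact hac (mem_image.2 ⟨v, mem_filter.2 ⟨hv, hpv⟩, rfl⟩)
  · have := card_insert_le a Hv
    omega
  · intro α hα
    exact hHv2 α (fun h => hα (mem_insert_of_mem h))
  · -- the number of classes
    have h1 : ((C.filter (fun v => hp v = v)).image cls) ⊆
        (C.filter (fun v => hp v = v)) \ (C.filter (fun v => cls v ≠ v)) := by
      intro z hz
      rw [mem_image] at hz
      obtain ⟨v, hv, rfl⟩ := hz
      rw [mem_filter] at hv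
      obtain ⟨h1, h2⟩ := hcls.cmem v hv.1
      rw [mem_sdiff, mem_filter, mem_filter]
      refine ⟨⟨h1, ?_⟩, fun h3 => h3.2 h2⟩
      by_cases h4 : cls v = v
      · rw [h4]
        exact hv.2
      · exact (hcls.cind v hv.1 (cls v) h1 (Ne.symm h4) h2.symm).2.2
    have h2 := card_le_card h1
    rw [card_sdiff_of_subset hsub, hcls.num] at h2
    have h3 : (C.filter (fun v => hp v = v)).card + HC.card = C.card :=
      card_filter_add_card_filter_not _
    have h4 := card_union_le (insert a Hv) (HC.image c0)
    have h5 := card_insert_le a Hv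
    have h6 : (HC.image c0).card ≤ HC.card := card_image_le
    have h7 : (C.filter (fun v => cls v ≠ v)).card ≤ (C.filter (fun v => hp v = v)).card :=
      card_le_card hsub
    rw [hcls.num] at h7
    show ((C.filter (fun v => hp v = v)).image cls).card +
      (insert a Hv ∪ HC.image c0).card ≤ d + 2
    omega
  · show (C.filter (fun v => cls v ≠ v)).card ≤ x + 2
    rw [hcls.num]
    omega
  · intro hsm v hv
    have hsm' : C.card + 1 ≤ d := hsm
    by_contra hne
    have h1 : 0 < (C.filter (fun v => cls v ≠ v)).card :=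
      card_pos.2 ⟨v, mem_filter.2 ⟨hv, hne⟩⟩
    rw [hcls.num] at h1
    omega

end Pool.Agent.Work.MP_db9399_nc.helper54
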