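import Pool.Agent.Work.MP_db9399_nc.Base
import Pool.Agent.Work.MP_db9399_all_helper6.AL

/-! THEOREM NC, block LSW: lopsided local lemma with switchings of two colours in a spot. -/

set_option autoImplicit false

namespace Pool.Agent.Work.MP_db9399_nc.helper54

open Finset Classical
open Pool.Agent.Work.MP_db9399_all (nb)

universe u

section
variable {V : Type u} [Fintype V]

theorem count1 (X : SimpleGraph V) (k x : ℕ) (hx : ∀ v, (nb X v).card ≤ x) (P : Finset V)
    (Q : Finset (Fin k)) :
    ((univ : Finset (V × V × Fin k)).filter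
      (fun t => t.1 ∈ P ∧ X.Adj t.1 t.2.1 ∧ t.2.2 ∈ Q)).card ≤ P.card * (x * Q.card) := by
  have hsub : (univ : Finset (V × V × Fin k)).filter
      (fun t => t.1 ∈ P ∧ X.Adj t.1 t.2.1 ∧ t.2.2 ∈ Q) ⊆
      P.biUnion (fun v => (nb X v ×ˢ Q).image (fun s => (v, s))) := by
    rintro ⟨v, w, a⟩ ht
    rw [mem_filter] at ht
    obtain ⟨-, h1, h2, h3⟩ := ht
    rw [mem_biUnion]
    refine ⟨v, h1, ?_⟩
    rw [mem_image]
    exact ⟨(w, a), mem_product.2 ⟨mem_nb.2 h2, h3⟩, rfl⟩
  refine (card_le_card hsub).trans ?_
  refine card_biUnion_le_card_mul _ _ _ (fun v _ => ?_)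
  refine card_image_le.trans ?_
  rw [card_product]
  exact Nat.mul_le_mul_right _ (hx v)

theorem count2 (X : SimpleGraph V) (k x : ℕ) (hx : ∀ v, (nb X v).card ≤ x) (P : Finset V)
    (Q : Finset (Fin k)) :
    ((univ : Finset (V × V × Fin k)).filter
      (fun t => t.2.1 ∈ P ∧ X.Adj t.1 t.2.1 ∧ t.2.2 ∈ Q)).card ≤ P.card * (x * Q.card) := by
  have hsub : (univ : Finset (V × V × Fin k)).filter
      (fun t => t.2.1 ∈ P ∧ X.Adj t.1 t.2.1 ∧ t.2.2 ∈ Q) ⊆
      P.biUnion (fun v => (nb X v ×ˢ Q).image (fun s => (s.1, v, s.2))) := by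
    rintro ⟨v, w, a⟩ ht
    rw [mem_filter] at ht
    obtain ⟨-, h1, h2, h3⟩ := ht
    rw [mem_biUnion]
    refine ⟨w, h1, ?_⟩
    rw [mem_image]
    exact ⟨(v, a), mem_product.2 ⟨mem_nb.2 h2.symm, h3⟩, rfl⟩
  refine (card_le_card hsub).trans ?_
  refine card_biUnion_le_card_mul _ _ _ (fun v _ => ?_)
  refine card_image_le.trans ?_
  rw [card_product]
  exact Nat.mul_le_mul_right _ (hx v)

/-- the switching of the colours `a`, `b` in the spot of `v` -/
noncomputable def sw {k : ℕ} (f : V → V) (v : V) (a b : Fin k) (c : V → Fin k) : V → Fin k :=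
  fun z => if f z = f v then Equiv.swap a b (c z) else c z

theorem sw_sw {k : ℕ} (f : V → V) (v : V) (a b : Fin k) (c : V → Fin k) :
    sw f v a b (sw f v a b c) = c := by
  funext z
  unfold sw
  by_cases h : f z = f v
  · rw [if_pos h, if_pos h, Equiv.swap_apply_self]
  · rw [if_neg h, if_neg h]

/-- good colourings with values in `Fin k` -/
def GF {k : ℕ} (f cls : V → V) (A : V → Finset ℕ) (c : V → Fin k) : Prop :=
  Good f cls A (fun v => (c v : ℕ))

theorem sw_good {k : ℕ} {f cls : V → V} {A : V → Finset ℕ} {c : V → Fin k} {v : V}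
    {a b : Fin k} (hc : GF f cls A c) (hva : c v = a) (hb : ∀ z, cls z = cls v → (b : ℕ) ∈ A z)
    (hb2 : ∀ z, f z = f v → c z = b → (a : ℕ) ∈ A z) : GF f cls A (sw f v a b c) := by
  obtain ⟨h1', h2'⟩ := hc
  have h1 : ∀ v, ((c v : Fin k) : ℕ) ∈ A v := h1'
  have h2 : ∀ v w, f v = f w → (((c v : Fin k) : ℕ) = ((c w : Fin k) : ℕ) ↔ cls v = cls w) := h2'
  constructor
  · intro z
    show ((sw f v a b c z : Fin k) : ℕ) ∈ A z
    unfold sw
    by_cases h : f z = f v
    · rw [if_pos h]
      by_cases hz : c z = a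
      · rw [hz, Equiv.swap_apply_left]
        apply hb z
        have h3 := (h2 z v h).1 (by rw [hz, hva])
        exact h3
      · by_cases hz' : c z = b
        · rw [hz', Equiv.swap_apply_right]
          exact hb2 z h hz'
        · rw [Equiv.swap_apply_of_ne_of_ne hz hz']
          exact h1 z
    · rw [if_neg h]
      exact h1 z
  · intro z z' hzz
    show ((sw f v a b c z : Fin k) : ℕ) = ((sw f v a b c z' : Fin k) : ℕ) ↔ _
    rw [← h2 z z' hzz]
    unfold sw
    by_cases h : f z = f v
    · rw [if_pos h, if_pos (hzz ▸ h)]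
      constructor
      · intro h3
        have h4 := (Equiv.swap a b).injective (Fin.ext h3)
        rw [h4]
      · intro h3
        rw [Fin.ext h3]
    · rw [if_neg h, if_neg (fun h' => h (hzz.trans h'))]

/-- possible new colours -/
noncomputable def Bs {k : ℕ} (f cls : V → V) (A : V → Finset ℕ) (c : V → Fin k) (v : V)
    (a : Fin k) : Finset (Fin k) :=
  univ.filter (fun b : Fin k => (∀ z, cls z = cls v → (b : ℕ) ∈ A z) ∧
    ∀ z, f z = f v → c z = b → (a : ℕ) ∈ A z)

theorem card_Bs {k q : ℕ} {f cls : V → V} {A : V → Finset ℕ} (c : V → Fin k) (v : V)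
    (a : Fin k)
    (hq : ((cl f (f v)).filter (fun z => (a : ℕ) ∉ A z)).card + q ≤
      ((range k).filter (fun β => ∀ z, cls z = cls v → β ∈ A z)).card) :
    q ≤ (Bs f cls A c v a).card := by
  set R : Finset (Fin k) := univ.filter (fun b : Fin k => ∀ z, cls z = cls v → (b : ℕ) ∈ A z)
    with hR
  have h1 : ((range k).filter (fun β => ∀ z, cls z = cls v → β ∈ A z)).card ≤ R.card := by
    have h2 : (range k).filter (fun β => ∀ z, cls z = cls v → β ∈ A z) ⊆
        R.image (fun b : Fin k => (b : ℕ)) := by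
      intro β hβ
      rw [mem_filter, mem_range] at hβ
      rw [mem_image]
      refine ⟨⟨β, hβ.1⟩, ?_, rfl⟩
      rw [hR, mem_filter]
      exact ⟨mem_univ _, hβ.2⟩
    exact (card_le_card h2).trans card_image_le
  have h3 : R ⊆ Bs f cls A c v a ∪ ((cl f (f v)).filter (fun z => (a : ℕ) ∉ A z)).image c := by
    intro b hb
    rw [hR, mem_filter] at hb
    rw [mem_union]
    by_cases h4 : ∀ z, f z = f v → c z = b → (a : ℕ) ∈ A z
    · left
      rw [Bs, mem_filter]
      exact ⟨mem_univ _, hb.2, h4⟩
    · right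
      push Not at h4
      obtain ⟨z, hz1, hz2, hz3⟩ := h4
      rw [mem_image]
      exact ⟨z, mem_filter.2 ⟨mem_cl.2 hz1, hz3⟩, hz2⟩
  have h5 := card_le_card h3
  have h6 := card_union_le (Bs f cls A c v a)
    (((cl f (f v)).filter (fun z => (a : ℕ) ∉ A z)).image c)
  have h7 : (((cl f (f v)).filter (fun z => (a : ℕ) ∉ A z)).image c).card ≤
    ((cl f (f v)).filter (fun z => (a : ℕ) ∉ A z)).card := card_image_le
  omega

end

theorem stmt_LSW : Stmt_LSW.{u} := by
  intro V _ X k q x f cls A Fr hX hx hcf h2 hcl hAk hq hq0 hkx hex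
  -- the space
  let Ω : Type u := {c : V → Fin k // GF f cls A c}
  let ι : Type u := {p : V × V × Fin k // X.Adj p.1 p.2.1 ∧ p.1 ∈ Fr ∧ p.2.1 ∈ Fr}
  have : Nonempty Ω := by
    obtain ⟨c, hc⟩ := hex
    refine ⟨⟨fun v => ⟨c v, hAk v _ (hc.1 v)⟩, ?_⟩⟩
    exact hc
  obtain ⟨E, hE⟩ : ∃ E : ι → Ω → Prop, ∀ i ω, E i ω ↔
    (ω.1 i.1.1 = i.1.2.2 ∧ ω.1 i.1.2.1 = i.1.2.2) := ⟨_, fun _ _ => Iff.rfl⟩
  obtain ⟨adj, had⟩ : ∃ adj : ι → ι → Prop, ∀ i j, adj i j ↔
    ∃ z, (z = i.1.1 ∨ z = i.1.2.1) ∧ ∃ z', (z' = j.1.1 ∨ z' = j.1.2.1) ∧ f z = f z' ∧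
      (cls z = cls z' ∨ i.1.2.2 = j.1.2.2) := ⟨_, fun _ _ => Iff.rfl⟩
  have hbig : ∀ i : ι, 200 ≤ q ^ 2 ∧ 1 ≤ k * x := by
    intro i
    have h3 : 1 ≤ k := by
      have := i.1.2.2.2
      omega
    have h4 : 1 ≤ x := by
      have h5 : i.1.2.1 ∈ nb X i.1.1 := mem_nb.2 i.2.1
      have h6 := card_pos.2 ⟨_, h5⟩
      have h7 := hx i.1.1
      omega
    have h5 : 1 ≤ k * x := Nat.mul_pos h3 h4
    refine ⟨?_, h5⟩
    have h6 : 200 * k * x = 200 * (k * x) := by ring
    omega
  have hqR : (0 : ℝ) < (q : ℝ) ^ 2 := by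
    have : (0 : ℝ) < q := by exact_mod_cast hq0
    positivity
  -- counting of the adjacent events
  have hadj : ∀ i : ι, (univ.filter (fun j => adj i j)).card ≤ 16 * (x * k) := by
    intro i
    set v := i.1.1 with hv
    set w := i.1.2.1 with hw
    set a := i.1.2.2 with ha
    set T : V → Finset (V × V × Fin k) := fun z =>
      (((univ : Finset (V × V × Fin k)).filter (fun t =>
        t.1 ∈ univ.filter (fun y => cls y = cls z) ∧ X.Adj t.1 t.2.1 ∧ t.2.2 ∈ univ)) ∪
      ((univ : Finset (V × V × Fin k)).filter (fun t =>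
        t.2.1 ∈ univ.filter (fun y => cls y = cls z) ∧ X.Adj t.1 t.2.1 ∧ t.2.2 ∈ univ))) ∪
      (((univ : Finset (V × V × Fin k)).filter (fun t =>
        t.1 ∈ cl f (f z) ∧ X.Adj t.1 t.2.1 ∧ t.2.2 ∈ ({a} : Finset (Fin k)))) ∪
      ((univ : Finset (V × V × Fin k)).filter (fun t =>
        t.2.1 ∈ cl f (f z) ∧ X.Adj t.1 t.2.1 ∧ t.2.2 ∈ ({a} : Finset (Fin k))))) with hT
    have hTc : ∀ z, (T z).card ≤ 8 * (x * k) := by
      intro z
      have e1 := count1 X k x hx (univ.filter (fun y => cls y = cls z)) univ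
      have e2 := count2 X k x hx (univ.filter (fun y => cls y = cls z)) univ
      have e3 := count1 X k x hx (cl f (f z)) {a}
      have e4 := count2 X k x hx (cl f (f z)) {a}
      have e5 : (univ.filter (fun y => cls y = cls z)).card * (x * (univ : Finset (Fin k)).card) ≤
          2 * (x * k) := by
        rw [card_univ, Fintype.card_fin]
        exact Nat.mul_le_mul_right _ (h2 z)
      have e6 : (cl f (f z)).card * (x * ({a} : Finset (Fin k)).card) ≤ 2 * (x * k) := by
        rw [card_singleton, mul_one]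
        calc (cl f (f z)).card * x ≤ 2 * k * x := Nat.mul_le_mul_right _ (hcl _)
          _ = 2 * (x * k) := by ring
      rw [hT]
      refine (card_union_le _ _).trans ?_
      refine (Nat.add_le_add (card_union_le _ _) (card_union_le _ _)).trans ?_
      have := Nat.add_le_add (Nat.add_le_add (e1.trans e5) (e2.trans e5))
        (Nat.add_le_add (e3.trans e6) (e4.trans e6))
      refine this.trans ?_
      omega
    have hsub : (univ.filter (fun j => adj i j)).image (fun j : ι => j.1) ⊆ T v ∪ T w := by
      intro t ht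
      rw [mem_image] at ht
      obtain ⟨j, hj, rfl⟩ := ht
      rw [mem_filter, had] at hj
      obtain ⟨-, z, hz, z', hz', hf, hc⟩ := hj
      have key : j.1 ∈ T z := by
        rw [hT]
        rcases hc with hc | hc
        · refine mem_union.2 (Or.inl ?_)
          rcases hz' with h | h
          · refine mem_union.2 (Or.inl (mem_filter.2 ⟨mem_univ _,
              mem_filter.2 ⟨mem_univ _, ?_⟩, j.2.1, mem_univ _⟩))
            rw [hc, h]
          · refine mem_union.2 (Or.inr (mem_filter.2 ⟨mem_univ _,
              mem_filter.2 ⟨mem_univ _, ?_⟩, j.2.1, mem_univ _⟩))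
            rw [hc, h]
        · refine mem_union.2 (Or.inr ?_)
          rcases hz' with h | h
          · refine mem_union.2 (Or.inl (mem_filter.2 ⟨mem_univ _,
              mem_cl.2 ?_, j.2.1, mem_singleton.2 hc.symm⟩))
            rw [hf, h]
          · refine mem_union.2 (Or.inr (mem_filter.2 ⟨mem_univ _,
              mem_cl.2 ?_, j.2.1, mem_singleton.2 hc.symm⟩))
            rw [hf, h]
      rw [mem_union]
      rcases hz with rfl | rfl
      · exact Or.inl key
      · exact Or.inr key
    have h3 : (univ.filter (fun j => adj i j)).card =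
        ((univ.filter (fun j => adj i j)).image (fun j : ι => j.1)).card := by
      rw [card_image_of_injective _ Subtype.val_injective]
    rw [h3]
    refine (card_le_card hsub).trans ((card_union_le _ _).trans ?_)
    have := Nat.add_le_add (hTc v) (hTc w)
    omega
  obtain ⟨ω, hω⟩ := Pool.Agent.Work.MP_db9399_all.stmt_AL.{u, u} Ω ι E adj
    (fun _ => 1 / (q : ℝ) ^ 2) (fun _ => 2 / (q : ℝ) ^ 2)
    (fun i => by positivity)
    (fun i => by
      have h3 : (200 : ℝ) ≤ (q : ℝ) ^ 2 := by exact_mod_cast (hbig i).1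
      rw [div_le_div_iff₀ hqR (by norm_num)]
      linarith)
    (fun i S hS => by
      set v := i.1.1 with hv
      set w := i.1.2.1 with hw
      set a := i.1.2.2 with ha
      have hvw : f w ≠ f v := fun h => hX v w i.2.1 h.symm
      suffices key0 : ∀ (L R : Finset Ω), (∀ ω ∈ L, E i ω ∧ ∀ k ∈ S, ¬ E k ω) →
          (∀ ω, (∀ k ∈ S, ¬ E k ω) → ω ∈ R) →
          ((L.card : ℕ) : ℝ) ≤ 1 / (q : ℝ) ^ 2 * ((R.card : ℕ) : ℝ) by
        refine key0 _ _ (fun ω h => ?_) (fun ω h => ?_)
        · simp only [mem_filter, mem_univ, true_and] at h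
          exact h
        · simp only [mem_filter, mem_univ, true_and]
          exact h
      intro L R hL hR
      have hmain : L.card * (q * q) ≤ R.card := by
        set D : Finset (Σ _ : Ω, Fin k × Fin k) :=
          L.sigma (fun ω => Bs f cls A ω.1 v a ×ˢ Bs f cls A ω.1 w a) with hD
        have hDc : L.card * (q * q) ≤ D.card := by
          rw [hD, card_sigma, ← smul_eq_mul]
          apply card_nsmul_le_sum
          intro ω hω
          obtain ⟨hv1, hw1⟩ := (hE _ _).1 (hL ω hω).1
          rw [card_product]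
          apply Nat.mul_le_mul
          · apply card_Bs
            apply hq v i.2.2.1
            have h3 : ((ω.1 v : Fin k) : ℕ) ∈ A v := ω.2.1 v
            have h4 : ω.1 v = a := hv1
            rw [h4] at h3
            exact h3
          · apply card_Bs
            apply hq w i.2.2.2
            have h3 : ((ω.1 w : Fin k) : ℕ) ∈ A w := ω.2.1 w
            have h4 : ω.1 w = a := hw1
            rw [h4] at h3
            exact h3
        refine hDc.trans ?_
        let g : (Σ _ : Ω, Fin k × Fin k) → Ω := fun s =>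
          if h : GF f cls A (sw f w a s.2.2 (sw f v a s.2.1 s.1.1)) then ⟨_, h⟩ else s.1
        have hgood : ∀ s ∈ D, GF f cls A (sw f w a s.2.2 (sw f v a s.2.1 s.1.1)) := by
          intro s hs
          obtain ⟨hsL, hsB⟩ := mem_sigma.1 hs
          obtain ⟨hB1, hB2⟩ := mem_product.1 hsB
          obtain ⟨hv1, hw1⟩ := (hE _ _).1 (hL _ hsL).1
          obtain ⟨-, b1, b2⟩ := mem_filter.1 hB1
          obtain ⟨-, b3, b4⟩ := mem_filter.1 hB2
          apply sw_good
          · exact sw_good s.1.2 hv1 b1 b2
          · unfold sw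
            rw [if_neg hvw]
            exact hw1
          · exact b3
          · intro z hz hz2
            apply b4 z hz
            unfold sw at hz2
            rw [if_neg (fun h => hvw (hz.symm.trans h))] at hz2
            exact hz2
        have hg : ∀ s ∈ D, (g s).1 = sw f w a s.2.2 (sw f v a s.2.1 s.1.1) := by
          intro s hs
          simp only [g]
          rw [dif_pos (hgood s hs)]
        apply card_le_card_of_injOn g
        · intro s hs
          have hs' : s ∈ D := hs
          have hgs := hg s hs'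
          obtain ⟨hsL, -⟩ := mem_sigma.1 hs'
          obtain ⟨hv1, hw1⟩ := (hE _ _).1 (hL _ hsL).1
          have hav := (hL _ hsL).2
          have hv1' : s.1.1 v = a := hv1
          have hw1' : s.1.1 w = a := hw1
          apply hR
          intro j hj hEj
          have hna := hS j hj
          rw [had] at hna
          apply hav j hj
          rw [hE] at hEj ⊢
          have key : ∀ z', (z' = j.1.1 ∨ z' = j.1.2.1) → (g s).1 z' = j.1.2.2 →
              s.1.1 z' = j.1.2.2 := by
            intro z' hz' he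
            rw [hgs] at he
            unfold sw at he
            by_cases h4 : f z' = f w
            · rw [if_pos h4] at he
              by_cases h5 : f z' = f v
              · exact absurd (h4.symm.trans h5) hvw
              · rw [if_neg h5] at he
                have h6 : ¬ (cls w = cls z' ∨ a = j.1.2.2) := fun h7 =>
                  hna ⟨w, Or.inr rfl, z', hz', h4.symm, h7⟩
                push Not at h6
                by_cases h7 : s.1.1 z' = a
                · exact absurd ((s.1.2.2 w z' h4.symm).1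
                    (congrArg (fun r : Fin k => (r : ℕ)) (hw1'.trans h7.symm))) h6.1
                · by_cases h8 : s.1.1 z' = s.2.2
                  · rw [h8, Equiv.swap_apply_right] at he
                    exact absurd he h6.2
                  · rw [Equiv.swap_apply_of_ne_of_ne h7 h8] at he
                    exact he
            · rw [if_neg h4] at he
              by_cases h5 : f z' = f v
              · rw [if_pos h5] at he
                have h6 : ¬ (cls v = cls z' ∨ a = j.1.2.2) := fun h7 =>
                  hna ⟨v, Or.inl rfl, z', hz', h5.symm, h7⟩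
                push Not at h6
                by_cases h7 : s.1.1 z' = a
                · exact absurd ((s.1.2.2 v z' h5.symm).1
                    (congrArg (fun r : Fin k => (r : ℕ)) (hv1'.trans h7.symm))) h6.1
                · by_cases h8 : s.1.1 z' = s.2.1
                  · rw [h8, Equiv.swap_apply_right] at he
                    exact absurd he h6.2
                  · rw [Equiv.swap_apply_of_ne_of_ne h7 h8] at he
                    exact he
              · rw [if_neg h5] at he
                exact he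
          exact ⟨key _ (Or.inl rfl) hEj.1, key _ (Or.inr rfl) hEj.2⟩
        · intro s hs t ht hst
          have hs' : s ∈ D := hs
          have ht' : t ∈ D := ht
          have e1 : sw f w a s.2.2 (sw f v a s.2.1 s.1.1) =
              sw f w a t.2.2 (sw f v a t.2.1 t.1.1) := by
            rw [← hg s hs', ← hg t ht', hst]
          have val : ∀ r ∈ D, sw f w a r.2.2 (sw f v a r.2.1 r.1.1) v = r.2.1 ∧
              sw f w a r.2.2 (sw f v a r.2.1 r.1.1) w = r.2.2 := by
            intro r hr
            obtain ⟨hrL, -⟩ := mem_sigma.1 hr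
            obtain ⟨hv1, hw1⟩ := (hE _ _).1 (hL _ hrL).1
            have hv1' : r.1.1 v = a := hv1
            have hw1' : r.1.1 w = a := hw1
            unfold sw
            constructor
            · rw [if_neg (fun h => hvw h.symm), if_pos rfl, hv1', Equiv.swap_apply_left]
            · rw [if_pos rfl, if_neg hvw, hw1', Equiv.swap_apply_left]
          have e2 : s.2.1 = t.2.1 := by
            rw [← (val s hs').1, ← (val t ht').1, e1]
          have e3 : s.2.2 = t.2.2 := by
            rw [← (val s hs').2, ← (val t ht').2, e1]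
          rw [e2, e3] at e1
          have e4 := congrArg (sw f w a t.2.2) e1
          rw [sw_sw, sw_sw] at e4
          have e5 := congrArg (sw f v a t.2.1) e4
          rw [sw_sw, sw_sw] at e5
          obtain ⟨s1, s2⟩ := s
          obtain ⟨t1, t2⟩ := t
          have e6 : s1 = t1 := Subtype.ext e5
          have e7 : s2 = t2 := Prod.ext e2 e3
          rw [e6, e7]
      have h3 : (L.card : ℝ) * ((q : ℝ) * q) ≤ R.card := by exact_mod_cast hmain
      rw [one_div, inv_mul_eq_div, le_div_iff₀ hqR, pow_two]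
      exact h3)
    (fun i => by
      obtain ⟨h3, h4⟩ := hbig i
      have h5 : ∑ _k ∈ univ.filter (fun k => adj i k), 2 / (q : ℝ) ^ 2 ≤
          16 * ((x : ℝ) * k) * (2 / (q : ℝ) ^ 2) := by
        rw [sum_const, nsmul_eq_mul]
        apply mul_le_mul_of_nonneg_right _ (by positivity)
        exact_mod_cast hadj i
      have h6 : 200 * ((x : ℝ) * k) ≤ (q : ℝ) ^ 2 := by
        have h7 : 200 * (x * k) ≤ q ^ 2 := by
          calc 200 * (x * k) = 200 * k * x := by ring
            _ ≤ q ^ 2 := hkx
        exact_mod_cast h7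
      have h7 : 2 * ∑ _k ∈ univ.filter (fun k => adj i k), 2 / (q : ℝ) ^ 2 ≤ 1 / 2 := by
        have h8 : 2 * (16 * ((x : ℝ) * k) * (2 / (q : ℝ) ^ 2)) ≤ 1 / 2 := by
          have h9 : 2 * (16 * ((x : ℝ) * k) * (2 / (q : ℝ) ^ 2)) =
              64 * ((x : ℝ) * k) / (q : ℝ) ^ 2 := by
            field_simp
            ring
          rw [h9, div_le_div_iff₀ hqR (by norm_num)]
          nlinarith
        linarith
      have h8 : Real.exp (2 * ∑ _k ∈ univ.filter (fun k => adj i k), 2 / (q : ℝ) ^ 2) ≤ 2 := by
        refine (Real.exp_le_exp.2 h7).trans ?_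
        have h9 : Real.exp (1 / 2) ^ 2 ≤ 2 ^ 2 := by
          rw [← Real.exp_nat_mul]
          have h10 : ((2 : ℕ) : ℝ) * (1 / 2) = 1 := by norm_num
          rw [h10]
          have := Real.exp_one_lt_d9
          norm_num
          linarith
        exact (abs_le_of_sq_le_sq' h9 (by norm_num)).2
      calc 1 / (q : ℝ) ^ 2 * Real.exp (2 * ∑ _k ∈ univ.filter (fun k => adj i k),
            2 / (q : ℝ) ^ 2) ≤ 1 / (q : ℝ) ^ 2 * 2 :=
            mul_le_mul_of_nonneg_left h8 (by positivity)
        _ = 2 / (q : ℝ) ^ 2 := by ring)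
  refine ⟨fun v => (ω.1 v : ℕ), ω.2, ?_⟩
  intro v hv w hw hvw he
  exact hω ⟨(v, w, ω.1 v), hvw, hv, hw⟩ ((hE _ _).2 ⟨rfl, (Fin.ext he).symm⟩)

end Pool.Agent.Work.MP_db9399_nc.helper54
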